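import Pool.Agent.H82.SC.Common

/-!
# The number of labeled self-complementary graphs
-/

open Pool.Agent.H82.SC

namespace Pool.Agent.Results.MP_1bfbc2_co.GraphsBySubgroups

/-- The number `s_p` of labeled self-complementary graphs of order `p`. -/
noncomputable def numGraphs (p : ℕ) : ℕ :=
  Nat.card {G : SimpleGraph (Fin p) // Nonempty (G ≃g Gᶜ)}

/-- The unordered pairs of distinct labels. -/
abbrev Pair (p : ℕ) : Type := {e : Sym2 (Fin p) // ¬ e.IsDiag}

/-- The signed permutations: pairs `(π, 1)` and `(π, -1)`. A pair `(π, 1)` acts on graphs by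
relabeling, `(π, -1)` by relabeling followed by complementation. -/
abbrev Signed (p : ℕ) : Type := Equiv.Perm (Fin p) × ℤˣ

noncomputable instance (p : ℕ) : Fintype (Subgroup (Signed p)) := Fintype.ofFinite _

noncomputable instance (p : ℕ) : DecidableLE (Subgroup (Signed p)) := Classical.decRel _

noncomputable instance (p : ℕ) : DecidableLT (Subgroup (Signed p)) := Classical.decRel _

noncomputable instance (p : ℕ) : DecidableEq (Subgroup (Signed p)) := Classical.decEq _

noncomputable instance (p : ℕ) : LocallyFiniteOrder (Subgroup (Signed p)) :=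
  Fintype.toLocallyFiniteOrder

/-- `H` contains some `(π, -1)`. -/
def IsOdd {p : ℕ} (H : Subgroup (Signed p)) : Prop := ∃ h ∈ H, h.2 = -1

/-- The number of orbits of `H` on the unordered pairs of labels. -/
noncomputable def orbits {p : ℕ} (H : Subgroup (Signed p)) : ℕ :=
  Nat.card (Quot fun e e' : Pair p => ∃ h ∈ H, e.1.map h.1 = e'.1)

/-- The number of orbits of `H` on the signed pairs `(e, ε)`, where `(π, δ)` maps `(e, ε)` to
`(π e, δ ε)`. -/
noncomputable def signedOrbits {p : ℕ} (H : Subgroup (Signed p)) : ℕ :=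
  Nat.card (Quot fun x y : Pair p × ℤˣ => ∃ h ∈ H, x.1.1.map h.1 = y.1.1 ∧ h.2 * x.2 = y.2)

/-- `2 ^ orbits H` if every orbit on pairs gives two orbits on signed pairs, and `0` otherwise. -/
noncomputable def weight {p : ℕ} (H : Subgroup (Signed p)) : ℤ :=
  if signedOrbits H = 2 * orbits H then 2 ^ orbits H else 0

open Classical in
/-- The sum of the values `μ(L, H)` of the Moebius function of the lattice of subgroups of the
group of signed permutations, over the subgroups `L ≤ H` that contain some `(π, -1)`. -/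
noncomputable def coeff {p : ℕ} (H : Subgroup (Signed p)) : ℤ :=
  ∑ L with L ≤ H ∧ IsOdd L, IncidenceAlgebra.mu ℤ L H

/-- `H` is generated by its elements `(π, -1)` whose order is a power of `2`. -/
def IsGen {p : ℕ} (H : Subgroup (Signed p)) : Prop :=
  Subgroup.closure {h | h ∈ H ∧ h.2 = -1 ∧ ∃ n : ℕ, h ^ 2 ^ n = 1} = H

/-! ### Proof -/

/-- a permutation moves a pair -/
def move {p : ℕ} (π : Equiv.Perm (Fin p)) (e : Pair p) : Pair p :=
  ⟨e.1.map π, by
    intro h
    apply e.2
    obtain ⟨e, he⟩ := e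
    induction e using Sym2.ind with
    | _ u v =>
      simp only [Sym2.map_mk, Sym2.mk_isDiag_iff] at h ⊢
      exact π.injective h⟩

instance (p : ℕ) : MulAction (Equiv.Perm (Fin p)) (Pair p) where
  smul := move
  one_smul e := Subtype.ext (by
    show e.1.map _ = e.1
    simp)
  mul_smul s t e := Subtype.ext (by
    show e.1.map _ = (e.1.map _).map _
    rw [Sym2.map_map]
    rfl)

lemma coe_smul {p : ℕ} (π : Equiv.Perm (Fin p)) (e : Pair p) : (π • e).1 = e.1.map π := rfl

/-- graphs as two-colourings of the pairs -/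
noncomputable def toFun {p : ℕ} : SimpleGraph (Fin p) ≃ (Pair p → Bool) :=
  { toFun := fun G e => @decide (e.1 ∈ G.edgeSet) (Classical.propDecidable _)
    invFun := fun x => SimpleGraph.fromEdgeSet {e | ∃ h : ¬ e.IsDiag, x ⟨e, h⟩ = true}
    left_inv := by
      intro G
      apply SimpleGraph.edgeSet_injective
      rw [SimpleGraph.edgeSet_fromEdgeSet]
      ext e
      constructor
      · rintro ⟨⟨_, h⟩, _⟩
        exact @of_decide_eq_true _ (Classical.propDecidable _) h
      · intro h
        exact ⟨⟨G.not_isDiag_of_mem_edgeSet h, @decide_eq_true _ (Classical.propDecidable _) h⟩, G.not_isDiag_of_mem_edgeSet h⟩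
    right_inv := by
      intro x
      funext e
      refine Bool.eq_iff_iff.2 (Iff.trans (@decide_eq_true_iff _ (Classical.propDecidable _)) ?_)
      rw [SimpleGraph.edgeSet_fromEdgeSet]
      constructor
      · rintro ⟨⟨_, h⟩, _⟩
        exact h
      · intro h
        exact ⟨⟨e.2, h⟩, e.2⟩ }

lemma toFun_apply {p : ℕ} (G : SimpleGraph (Fin p)) (e : Pair p) :
    toFun G e = true ↔ e.1 ∈ G.edgeSet := by
  simp [toFun]

lemma iso_iff {p : ℕ} (G : SimpleGraph (Fin p)) (π : Equiv.Perm (Fin p)) :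
    (∀ u v, Gᶜ.Adj (π u) (π v) ↔ G.Adj u v) ↔ ∀ e : Pair p, toFun G (π • e) = !(toFun G e) := by
  constructor
  · rintro h ⟨e, he⟩
    induction e using Sym2.ind with
    | _ u v =>
      have h1 := toFun_apply G (π • ⟨s(u, v), he⟩)
      have h2 := toFun_apply G ⟨s(u, v), he⟩
      rw [coe_smul, Sym2.map_mk, SimpleGraph.mem_edgeSet] at h1
      rw [SimpleGraph.mem_edgeSet] at h2
      have h3 := h u v
      rw [SimpleGraph.compl_adj] at h3
      have hne : π u ≠ π v := by
        intro hc
        exact he (by simpa using π.injective hc)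
      have h4 : toFun G (π • ⟨s(u, v), he⟩) = true ↔ ¬ (toFun G ⟨s(u, v), he⟩ = true) := by
        rw [h1, h2]
        simp only [hne, ne_eq, not_false_eq_true, true_and] at h3
        tauto
      rw [Bool.eq_iff_iff, h4]
      simp
  · intro h u v
    rw [SimpleGraph.compl_adj]
    by_cases huv : u = v
    · subst huv
      simp
    · have he : ¬ (s(u, v) : Sym2 (Fin p)).IsDiag := by simpa using huv
      have h1 := toFun_apply G (π • ⟨s(u, v), he⟩)
      have h2 := toFun_apply G ⟨s(u, v), he⟩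
      rw [coe_smul, Sym2.map_mk, SimpleGraph.mem_edgeSet] at h1
      rw [SimpleGraph.mem_edgeSet] at h2
      have h3 := h ⟨s(u, v), he⟩
      have hne : π u ≠ π v := by
        intro hc
        exact huv (π.injective hc)
      rw [← h1, ← h2, h3]
      simp [hne]

lemma selfCompl_iff {p : ℕ} (G : SimpleGraph (Fin p)) :
    Nonempty (G ≃g Gᶜ) ↔ ∃ π : Equiv.Perm (Fin p), ∀ e : Pair p, toFun G (π • e) = !(toFun G e) := by
  constructor
  · rintro ⟨f⟩
    exact ⟨f.toEquiv, (iso_iff G f.toEquiv).1 fun u v => f.map_rel_iff⟩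
  · rintro ⟨π, h⟩
    exact ⟨⟨π, fun {u v} => (iso_iff G π).2 h u v⟩⟩

/-- the sign as a Boolean -/
def sgn (u : ℤˣ) : Bool := decide (u = -1)

lemma sgn_mul (u v : ℤˣ) : sgn (u * v) = xor (sgn u) (sgn v) := by
  rcases Int.units_eq_one_or u with rfl | rfl <;> rcases Int.units_eq_one_or v with rfl | rfl <;>
    decide

lemma sgn_inv (u : ℤˣ) : sgn u⁻¹ = sgn u := by
  rcases Int.units_eq_one_or u with rfl | rfl <;> decide

/-- the signs and the Booleans -/
def sgnEquiv : ℤˣ ≃ Bool where
  toFun := sgn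
  invFun b := if b then -1 else 1
  left_inv u := by
    rcases Int.units_eq_one_or u with rfl | rfl <;> decide
  right_inv b := by
    cases b <;> decide

/-- the stabiliser of a colouring -/
def stab {p : ℕ} (x : Pair p → Bool) : Subgroup (Signed p) where
  carrier := {h | ∀ e, x (h.1 • e) = xor (x e) (sgn h.2)}
  mul_mem' := by
    intro g h hg hh e
    rw [Prod.fst_mul, mul_smul, hg, hh, Prod.snd_mul, sgn_mul]
    cases x e <;> cases sgn g.2 <;> cases sgn h.2 <;> rfl
  one_mem' := by
    intro e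
    simp [sgn]
  inv_mem' := by
    intro h hh e
    have := hh (h.1⁻¹ • e)
    rw [smul_inv_smul] at this
    rw [Prod.fst_inv, Prod.snd_inv, sgn_inv, this]
    cases x (h.1⁻¹ • e) <;> cases sgn h.2 <;> rfl

lemma weight_eq {p : ℕ} (H : Subgroup (Signed p)) :
    weight H = (Nat.card {x : Pair p → Bool // H ≤ stab x} : ℤ) := by
  classical
  have h := card_rev (fun (i : H) (e : Pair p) => i.1.1 • e) (fun i => sgn i.1.2)
  have h1 : Nat.card (Quot (r1 fun (i : H) (e : Pair p) => i.1.1 • e)) = orbits H := by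
    unfold orbits
    congr 1
    congr 1
    funext e e'
    apply propext
    constructor
    · rintro ⟨i, hi⟩
      exact ⟨i.1, i.2, Subtype.ext_iff.1 hi⟩
    · rintro ⟨i, hi, h⟩
      exact ⟨⟨i, hi⟩, Subtype.ext h⟩
  have h2 : Nat.card (Quot (r2 (fun (i : H) (e : Pair p) => i.1.1 • e) fun i => sgn i.1.2)) =
      signedOrbits H := by
    unfold signedOrbits
    refine Nat.card_congr (Quot.congr ((Equiv.refl _).prodCongr sgnEquiv.symm) ?_)
    rintro ⟨e, b⟩ ⟨e', b'⟩
    obtain ⟨u, rfl⟩ := sgnEquiv.surjective b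
    obtain ⟨u', rfl⟩ := sgnEquiv.surjective b'
    rw [r2_iff]
    simp only [Equiv.prodCongr_apply, Prod.map_apply, Equiv.symm_apply_apply, Equiv.refl_apply]
    constructor
    · rintro ⟨i, hi, h⟩
      refine ⟨i.1, i.2, Subtype.ext_iff.1 hi, ?_⟩
      apply sgnEquiv.injective
      rw [← h]
      show sgn (i.1.2 * u) = xor (sgn u) (sgn i.1.2)
      rw [sgn_mul, Bool.xor_comm]
    · rintro ⟨i, hi, h, h'⟩
      refine ⟨⟨i, hi⟩, Subtype.ext h, ?_⟩
      rw [← h']
      show xor (sgn u) (sgn i.2) = sgn (i.2 * u)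
      rw [sgn_mul, Bool.xor_comm]
  rw [h1, h2] at h
  unfold weight
  have h3 : Nat.card {x : Pair p → Bool // H ≤ stab x} =
      Nat.card (Rev (fun (i : H) (e : Pair p) => i.1.1 • e) fun i => sgn i.1.2) := by
    refine Nat.card_congr (Equiv.subtypeEquivRight fun x => ?_)
    constructor
    · intro hx i e
      exact hx i.2 e
    · intro hx i hi e
      exact hx ⟨i, hi⟩ e
  rw [h3, h]
  split_ifs <;> push_cast <;> rfl

/-- Moebius inversion for an indicator function -/
private lemma indicator_eq_sum {Γ : Type*} [PartialOrder Γ] [Fintype Γ] [LocallyFiniteOrder Γ]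
    [DecidableEq Γ] (O : Γ → Prop) [DecidablePred O] [DecidableLE Γ] (M : Γ) :
    (if O M then (1 : ℤ) else 0) =
      ∑ K : Γ, if K ≤ M then ∑ L with L ≤ K ∧ O L, IncidenceAlgebra.mu ℤ L K else 0 := by
  have h := card_eq_mobius O (fun _ : Unit => M)
  have h1 : (Nat.card {_x : Unit // O M} : ℤ) = if O M then 1 else 0 := by
    split_ifs with hO
    · simp [hO]
    · simp [hO]
  rw [h1] at h
  rw [h]
  refine Finset.sum_congr rfl fun K _ => ?_
  split_ifs with hK
  · simp [hK]
  · simp [hK]

/-- the coefficient vanishes if the property is seen by a smaller element -/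
private lemma sum_mu_eq_zero {Γ : Type*} [Lattice Γ] [Fintype Γ] [LocallyFiniteOrder Γ]
    [DecidableEq Γ] (O : Γ → Prop) [DecidablePred O] [DecidableLE Γ] {H H₀ : Γ}
    (hne : ¬ H ≤ H₀) (hO : ∀ L ≤ H, (O L ↔ O (L ⊓ H₀))) :
    ∑ L with L ≤ H ∧ O L, IncidenceAlgebra.mu ℤ L H = 0 := by
  set c : Γ → ℤ := fun K => ∑ L with L ≤ K ∧ O L, IncidenceAlgebra.mu ℤ L K with hc
  have h1 : ∑ L with L ≤ H ∧ O L, IncidenceAlgebra.mu ℤ L H =
      ∑ L : Γ, ∑ K : Γ, (if K ≤ H₀ then c K else 0) *
        (if K ≤ L ∧ L ≤ H then IncidenceAlgebra.mu ℤ L H else 0) := by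
    rw [Finset.sum_filter]
    refine Finset.sum_congr rfl fun L _ => ?_
    by_cases hL : L ≤ H
    · have h2 : (if L ≤ H ∧ O L then IncidenceAlgebra.mu ℤ L H else 0) =
          (if O (L ⊓ H₀) then (1 : ℤ) else 0) * IncidenceAlgebra.mu ℤ L H := by
        by_cases h3 : O L
        · rw [if_pos ⟨hL, h3⟩, if_pos ((hO L hL).1 h3), one_mul]
        · rw [if_neg fun h => h3 h.2, if_neg fun h => h3 ((hO L hL).2 h), zero_mul]
      rw [h2, indicator_eq_sum O (L ⊓ H₀), Finset.sum_mul]
      refine Finset.sum_congr rfl fun K _ => ?_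
      by_cases h4 : K ≤ L <;> by_cases h5 : K ≤ H₀ <;> simp [h4, h5, hL, hc]
    · rw [if_neg fun h => hL h.1]
      refine (Finset.sum_eq_zero fun K _ => ?_).symm
      simp [hL]
  rw [h1, Finset.sum_comm]
  refine Finset.sum_eq_zero fun K _ => ?_
  rw [← Finset.mul_sum]
  by_cases h5 : K ≤ H₀
  · have h6 : ∑ L : Γ, (if K ≤ L ∧ L ≤ H then IncidenceAlgebra.mu ℤ L H else 0) =
        ∑ L ∈ Finset.Icc K H, IncidenceAlgebra.mu ℤ L H := by
      rw [← Finset.sum_filter]
      refine Finset.sum_congr ?_ fun _ _ => rfl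
      ext L
      simp
    have h7 : ¬ K = H := by
      rintro rfl
      exact hne h5
    rw [h6, IncidenceAlgebra.sum_Icc_mu_left, if_neg h7, mul_zero]
  · simp [h5]

/-- only the subgroups which are generated by elements `(π, -1)` of `2`-power order count -/
private lemma coeff_eq_zero {p : ℕ} {H : Subgroup (Signed p)} (hH : ¬ IsGen H) : coeff H = 0 := by
  classical
  set H₀ : Subgroup (Signed p) :=
    Subgroup.closure {h | h ∈ H ∧ h.2 = -1 ∧ ∃ n : ℕ, h ^ 2 ^ n = 1} with hH₀
  have hle : H₀ ≤ H := (Subgroup.closure_le _).2 fun h hh => hh.1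
  have hne : ¬ H ≤ H₀ := fun h => hH (le_antisymm hle h)
  refine sum_mu_eq_zero (fun L : Subgroup (Signed p) => IsOdd L) hne fun L hL => ⟨?_, ?_⟩
  · rintro ⟨x, hx, hx2⟩
    obtain ⟨k, m, hm, hk⟩ := Nat.exists_eq_two_pow_mul_odd (orderOf_pos x).ne'
    have h1 : (x ^ m).2 = -1 := by
      rw [Prod.pow_snd, hx2, hm.neg_one_pow]
    refine ⟨x ^ m, ⟨L.pow_mem hx m, Subgroup.subset_closure ⟨hL (L.pow_mem hx m), h1, k, ?_⟩⟩, h1⟩
    rw [← pow_mul, mul_comm, ← hk, pow_orderOf_eq_one]
  · rintro ⟨x, hx, hx2⟩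
    exact ⟨x, hx.1, hx2⟩

open Classical in
/-- **Explicit formula for the number of labeled self-complementary graphs of order `p`.** -/
theorem result (p : ℕ) :
    (numGraphs p : ℤ) = ∑ H : Subgroup (Signed p) with IsGen H, coeff H * weight H := by
  have h0 : ∑ H : Subgroup (Signed p) with IsGen H, coeff H * weight H =
      ∑ H : Subgroup (Signed p), coeff H * weight H := by
    rw [Finset.sum_filter]
    refine Finset.sum_congr rfl fun H _ => ?_
    split_ifs with h
    · rfl
    · rw [coeff_eq_zero h, zero_mul]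
  rw [h0]
  have key := card_eq_mobius (fun H : Subgroup (Signed p) => IsOdd H)
    (fun x : Pair p → Bool => stab x)
  have h1 : numGraphs p = Nat.card {x : Pair p → Bool // IsOdd (stab x)} := by
    unfold numGraphs
    refine Nat.card_congr (toFun.subtypeEquiv fun G => ?_)
    rw [selfCompl_iff]
    constructor
    · rintro ⟨π, h⟩
      refine ⟨(π, -1), fun e => ?_, rfl⟩
      rw [h e]
      simp [sgn]
    · rintro ⟨⟨π, u⟩, h, hu⟩
      refine ⟨π, fun e => ?_⟩
      have h2 := h e
      simp only at hu h2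
      rw [h2, hu]
      simp [sgn]
  rw [h1, key]
  refine Finset.sum_congr rfl fun H _ => ?_
  rw [weight_eq]
  rfl

end Pool.Agent.Results.MP_1bfbc2_co.GraphsBySubgroups
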