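import Pool.Agent.H82.SC.Common

/-!
# The number of labeled self-complementary digraphs
-/

open Pool.Agent.H82.SC

namespace Pool.Agent.Results.MP_1bfbc2_co.LabeledDigraphs

/-- A labeled digraph of order `p`, without loops and multiple arcs. -/
@[ext] structure LDigraph (p : ℕ) where
  /-- the arc relation -/
  Arc : Fin p → Fin p → Prop
  loopless : ∀ v, ¬ Arc v v

/-- The complement of a digraph. -/
def LDigraph.compl {p : ℕ} (D : LDigraph p) : LDigraph p where
  Arc u v := u ≠ v ∧ ¬ D.Arc u v
  loopless v h := h.1 rfl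

/-- `D` and `D'` are isomorphic. -/
def LDigraph.IsIso {p : ℕ} (D D' : LDigraph p) : Prop :=
  ∃ π : Equiv.Perm (Fin p), ∀ u v, D.Arc u v ↔ D'.Arc (π u) (π v)

/-- The number `S_p` of labeled self-complementary digraphs of order `p`. -/
noncomputable def numDigraphs (p : ℕ) : ℕ :=
  Nat.card {D : LDigraph p // D.IsIso D.compl}

/-- The ordered pairs of distinct labels. -/
abbrev OPair (p : ℕ) : Type := {e : Fin p × Fin p // e.1 ≠ e.2}

/-- The number of orbits, on the ordered pairs of distinct labels, of the group generated by the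
permutations `π 0, …, π (k - 1)`. -/
noncomputable def orbits {p k : ℕ} (π : Fin k → Equiv.Perm (Fin p)) : ℕ :=
  Nat.card (Quot fun e e' : OPair p => ∃ i, π i e.1.1 = e'.1.1 ∧ π i e.1.2 = e'.1.2)

/-- The number of orbits, on the signed ordered pairs `(e, b)`, of the group generated by the
transformations `(e, b) ↦ (π i e, not b)`. -/
noncomputable def signedOrbits {p k : ℕ} (π : Fin k → Equiv.Perm (Fin p)) : ℕ :=
  Nat.card (Quot fun x y : OPair p × Bool =>
    ∃ i, (π i x.1.1.1 = y.1.1.1 ∧ π i x.1.1.2 = y.1.1.2) ∧ y.2 = !x.2)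

/-- `2 ^ orbits π` if every orbit on ordered pairs gives two orbits on signed pairs, and `0`
otherwise. -/
noncomputable def weight {p k : ℕ} (π : Fin k → Equiv.Perm (Fin p)) : ℚ :=
  if signedOrbits π = 2 * orbits π then 2 ^ orbits π else 0

/-! ### Proof -/

instance (p : ℕ) : MulAction (Equiv.Perm (Fin p)) (OPair p) where
  smul π e := ⟨(π e.1.1, π e.1.2), fun h => e.2 (π.injective h)⟩
  one_smul e := rfl
  mul_smul s t e := rfl

lemma coe_smul {p : ℕ} (π : Equiv.Perm (Fin p)) (e : OPair p) :
    (π • e).1 = (π e.1.1, π e.1.2) := rfl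

/-- digraphs as two-colourings of the ordered pairs -/
noncomputable def toFun {p : ℕ} : LDigraph p ≃ (OPair p → Bool) :=
  { toFun := fun D e => @decide (D.Arc e.1.1 e.1.2) (Classical.propDecidable _)
    invFun := fun x => ⟨fun u v => ∃ h : u ≠ v, x ⟨(u, v), h⟩ = true, fun v h => h.1 rfl⟩
    left_inv := by
      intro D
      apply LDigraph.ext
      funext u v
      apply propext
      constructor
      · rintro ⟨_, h⟩
        exact @of_decide_eq_true _ (Classical.propDecidable _) h
      · intro h
        refine ⟨?_, @decide_eq_true _ (Classical.propDecidable _) h⟩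
        rintro rfl
        exact D.loopless _ h
    right_inv := by
      intro x
      funext e
      refine Bool.eq_iff_iff.2 (Iff.trans (@decide_eq_true_iff _ (Classical.propDecidable _)) ?_)
      constructor
      · rintro ⟨_, h⟩
        exact h
      · intro h
        exact ⟨e.2, h⟩ }

lemma toFun_apply {p : ℕ} (D : LDigraph p) (e : OPair p) :
    toFun D e = true ↔ D.Arc e.1.1 e.1.2 := by
  simp [toFun]

lemma iso_iff {p : ℕ} (D : LDigraph p) (π : Equiv.Perm (Fin p)) :
    (∀ u v, D.Arc u v ↔ D.compl.Arc (π u) (π v)) ↔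
      ∀ e : OPair p, toFun D (π • e) = !(toFun D e) := by
  constructor
  · rintro h ⟨⟨u, v⟩, he⟩
    have h1 := toFun_apply D (π • ⟨(u, v), he⟩)
    have h2 := toFun_apply D ⟨(u, v), he⟩
    rw [coe_smul] at h1
    have h3 := h u v
    have hne : π u ≠ π v := fun hc => he (π.injective hc)
    have h4 : toFun D (π • ⟨(u, v), he⟩) = true ↔ ¬ (toFun D ⟨(u, v), he⟩ = true) := by
      rw [h1, h2, h3]
      simp only [LDigraph.compl]
      tauto
    rw [Bool.eq_iff_iff, h4]
    simp
  · intro h u v
    by_cases huv : u = v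
    · subst huv
      constructor
      · intro hc
        exact (D.loopless _ hc).elim
      · intro hc
        exact (hc.1 rfl).elim
    · have h1 := toFun_apply D (π • ⟨(u, v), huv⟩)
      have h2 := toFun_apply D ⟨(u, v), huv⟩
      rw [coe_smul] at h1
      have h3 := h ⟨(u, v), huv⟩
      have hne : π u ≠ π v := fun hc => huv (π.injective hc)
      have h5 : D.compl.Arc (π u) (π v) ↔ ¬ D.Arc (π u) (π v) :=
        ⟨fun hc => hc.2, fun hc => ⟨hne, hc⟩⟩
      rw [h5]
      change _ ↔ D.Arc (π u) (π v) at h1
      change _ ↔ D.Arc u v at h2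
      rw [← h1, ← h2, h3]
      simp

lemma weight_eq {p k : ℕ} (π : Fin k → Equiv.Perm (Fin p)) :
    weight π = (Nat.card {x : OPair p → Bool // ∀ i e, x (π i • e) = !(x e)} : ℚ) := by
  classical
  have h := card_rev (fun (i : Fin k) (e : OPair p) => π i • e) (fun _ => true)
  have hs : ∀ (σ : Equiv.Perm (Fin p)) (e e' : OPair p),
      σ • e = e' ↔ σ e.1.1 = e'.1.1 ∧ σ e.1.2 = e'.1.2 := by
    intro σ e e'
    rw [Subtype.ext_iff, coe_smul, Prod.ext_iff]
  have h1 : Nat.card (Quot (r1 fun (i : Fin k) (e : OPair p) => π i • e)) = orbits π := by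
    unfold orbits
    congr 1
    congr 1
    funext e e'
    apply propext
    exact exists_congr fun i => hs _ _ _
  have h2 : Nat.card (Quot (r2 (fun (i : Fin k) (e : OPair p) => π i • e) fun _ => true)) =
      signedOrbits π := by
    unfold signedOrbits
    congr 1
    congr 1
    funext x y
    apply propext
    rw [r2_iff]
    refine exists_congr fun i => ?_
    rw [hs]
    rw [Bool.xor_true]
    exact and_congr Iff.rfl eq_comm
  rw [h1, h2] at h
  unfold weight
  have h3 : Nat.card {x : OPair p → Bool // ∀ i e, x (π i • e) = !(x e)} =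
      Nat.card (Rev (fun (i : Fin k) (e : OPair p) => π i • e) fun _ => true) := by
    unfold Rev
    simp only [Bool.xor_true]
  rw [h3, h]
  split_ifs <;> push_cast <;> rfl

/-- **Explicit formula for the number of labeled self-complementary digraphs of order `p`.** -/
theorem result (p : ℕ) :
    (numDigraphs p : ℚ) =
      ∑ k ∈ Finset.Icc 1 (Nat.divisors p.factorial).card,
        (-1) ^ (k + 1) *
          (∑ T ∈ (Nat.divisors p.factorial).powersetCard k, ∏ d ∈ T, (1 / d : ℚ)) *
          ∑ π : Fin k → Equiv.Perm (Fin p), weight π := by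
  classical
  have hcard : Fintype.card (Equiv.Perm (Fin p)) = p.factorial := by
    rw [Fintype.card_perm, Fintype.card_fin]
  let A : (OPair p → Bool) → Finset (Equiv.Perm (Fin p)) := fun x =>
    Finset.univ.filter fun π => ∀ e : OPair p, x (π • e) = !(x e)
  have hA : ∀ x π, π ∈ A x ↔ ∀ e : OPair p, x (π • e) = !(x e) := by
    intro x π
    simp [A]
  have key := card_eq_moments A (Nat.divisors p.factorial)
    (fun d hd => (Nat.pos_of_mem_divisors hd).ne')
    (fun x => by
      have := card_reversing x (A x) (hA x)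
      rwa [hcard] at this)
  have h1 : numDigraphs p = Nat.card {x // (A x).Nonempty} := by
    unfold numDigraphs
    refine Nat.card_congr (toFun.subtypeEquiv fun D => ?_)
    constructor
    · rintro ⟨π, h⟩
      exact ⟨π, (hA _ _).2 ((iso_iff D π).1 h)⟩
    · rintro ⟨π, h⟩
      exact ⟨π, (iso_iff D π).2 ((hA _ _).1 h)⟩
  rw [h1, key]
  refine Finset.sum_congr rfl fun k _ => ?_
  congr 1
  refine Finset.sum_congr rfl fun π _ => ?_
  rw [weight_eq]
  have h2 : (fun x : OPair p → Bool => ∀ i, π i ∈ A x) =
      fun x => ∀ (i : Fin k) (e : OPair p), x (π i • e) = !(x e) := by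
    funext x
    exact propext (forall_congr' fun i => hA x (π i))
  rw [h2]

end Pool.Agent.Results.MP_1bfbc2_co.LabeledDigraphs
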