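import Pool.Agent.H82.SC.Common

/-!
# The number of labeled self-complementary graphs
-/

open Pool.Agent.H82.SC

namespace Pool.Agent.Results.MP_1bfbc2_co.LabeledGraphs

/-- The number `s_p` of labeled self-complementary graphs of order `p`. -/
noncomputable def numGraphs (p : ℕ) : ℕ :=
  Nat.card {G : SimpleGraph (Fin p) // Nonempty (G ≃g Gᶜ)}

/-- The unordered pairs of distinct labels. -/
abbrev Pair (p : ℕ) : Type := {e : Sym2 (Fin p) // ¬ e.IsDiag}

/-- The number of orbits, on the unordered pairs of labels, of the group generated by the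
permutations `π 0, …, π (k - 1)`. -/
noncomputable def orbits {p k : ℕ} (π : Fin k → Equiv.Perm (Fin p)) : ℕ :=
  Nat.card (Quot fun e e' : Pair p => ∃ i, e.1.map (π i) = e'.1)

/-- The number of orbits, on the signed pairs `(e, b)`, of the group generated by the
transformations `(e, b) ↦ (π i e, not b)`. -/
noncomputable def signedOrbits {p k : ℕ} (π : Fin k → Equiv.Perm (Fin p)) : ℕ :=
  Nat.card (Quot fun x y : Pair p × Bool => ∃ i, x.1.1.map (π i) = y.1.1 ∧ y.2 = !x.2)

/-- `2 ^ orbits π` if every orbit on pairs gives two orbits on signed pairs, and `0` otherwise. -/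
noncomputable def weight {p k : ℕ} (π : Fin k → Equiv.Perm (Fin p)) : ℚ :=
  if signedOrbits π = 2 * orbits π then 2 ^ orbits π else 0

/-! ### Proof -/

/-- a permutation moves a pair -/
def move {p : ℕ} (π : Equiv.Perm (Fin p)) (e : Pair p) : Pair p :=
  ⟨e.1.map π, by
    intro h
    apply e.2
    obtain ⟨e, he⟩ := e
    induction e using Sym2.ind with
    | _ u v =>
      simp only [Sym2.map_mk, Sym2.mk_isDiag_iff] at h ⊢
      exact π.injective h⟩

instance (p : ℕ) : MulAction (Equiv.Perm (Fin p)) (Pair p) where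
  smul := move
  one_smul e := Subtype.ext (by
    show e.1.map _ = e.1
    simp)
  mul_smul s t e := Subtype.ext (by
    show e.1.map _ = (e.1.map _).map _
    rw [Sym2.map_map]
    rfl)

lemma coe_smul {p : ℕ} (π : Equiv.Perm (Fin p)) (e : Pair p) : (π • e).1 = e.1.map π := rfl

/-- graphs as two-colourings of the pairs -/
noncomputable def toFun {p : ℕ} : SimpleGraph (Fin p) ≃ (Pair p → Bool) :=
  { toFun := fun G e => @decide (e.1 ∈ G.edgeSet) (Classical.propDecidable _)
    invFun := fun x => SimpleGraph.fromEdgeSet {e | ∃ h : ¬ e.IsDiag, x ⟨e, h⟩ = true}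
    left_inv := by
      intro G
      apply SimpleGraph.edgeSet_injective
      rw [SimpleGraph.edgeSet_fromEdgeSet]
      ext e
      constructor
      · rintro ⟨⟨_, h⟩, _⟩
        exact @of_decide_eq_true _ (Classical.propDecidable _) h
      · intro h
        exact ⟨⟨G.not_isDiag_of_mem_edgeSet h, @decide_eq_true _ (Classical.propDecidable _) h⟩, G.not_isDiag_of_mem_edgeSet h⟩
    right_inv := by
      intro x
      funext e
      refine Bool.eq_iff_iff.2 (Iff.trans (@decide_eq_true_iff _ (Classical.propDecidable _)) ?_)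
      rw [SimpleGraph.edgeSet_fromEdgeSet]
      constructor
      · rintro ⟨⟨_, h⟩, _⟩
        exact h
      · intro h
        exact ⟨⟨e.2, h⟩, e.2⟩ }

lemma toFun_apply {p : ℕ} (G : SimpleGraph (Fin p)) (e : Pair p) :
    toFun G e = true ↔ e.1 ∈ G.edgeSet := by
  simp [toFun]

lemma iso_iff {p : ℕ} (G : SimpleGraph (Fin p)) (π : Equiv.Perm (Fin p)) :
    (∀ u v, Gᶜ.Adj (π u) (π v) ↔ G.Adj u v) ↔ ∀ e : Pair p, toFun G (π • e) = !(toFun G e) := by
  constructor
  · rintro h ⟨e, he⟩
    induction e using Sym2.ind with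
    | _ u v =>
      have h1 := toFun_apply G (π • ⟨s(u, v), he⟩)
      have h2 := toFun_apply G ⟨s(u, v), he⟩
      rw [coe_smul, Sym2.map_mk, SimpleGraph.mem_edgeSet] at h1
      rw [SimpleGraph.mem_edgeSet] at h2
      have h3 := h u v
      rw [SimpleGraph.compl_adj] at h3
      have hne : π u ≠ π v := by
        intro hc
        exact he (by simpa using π.injective hc)
      have h4 : toFun G (π • ⟨s(u, v), he⟩) = true ↔ ¬ (toFun G ⟨s(u, v), he⟩ = true) := by
        rw [h1, h2]
        simp only [hne, ne_eq, not_false_eq_true, true_and] at h3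
        tauto
      rw [Bool.eq_iff_iff, h4]
      simp
  · intro h u v
    rw [SimpleGraph.compl_adj]
    by_cases huv : u = v
    · subst huv
      simp
    · have he : ¬ (s(u, v) : Sym2 (Fin p)).IsDiag := by simpa using huv
      have h1 := toFun_apply G (π • ⟨s(u, v), he⟩)
      have h2 := toFun_apply G ⟨s(u, v), he⟩
      rw [coe_smul, Sym2.map_mk, SimpleGraph.mem_edgeSet] at h1
      rw [SimpleGraph.mem_edgeSet] at h2
      have h3 := h ⟨s(u, v), he⟩
      have hne : π u ≠ π v := by
        intro hc
        exact huv (π.injective hc)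
      rw [← h1, ← h2, h3]
      simp [hne]

lemma selfCompl_iff {p : ℕ} (G : SimpleGraph (Fin p)) :
    Nonempty (G ≃g Gᶜ) ↔ ∃ π : Equiv.Perm (Fin p), ∀ e : Pair p, toFun G (π • e) = !(toFun G e) := by
  constructor
  · rintro ⟨f⟩
    exact ⟨f.toEquiv, (iso_iff G f.toEquiv).1 fun u v => f.map_rel_iff⟩
  · rintro ⟨π, h⟩
    exact ⟨⟨π, fun {u v} => (iso_iff G π).2 h u v⟩⟩

lemma weight_eq {p k : ℕ} (π : Fin k → Equiv.Perm (Fin p)) :
    weight π = (Nat.card {x : Pair p → Bool // ∀ i e, x (π i • e) = !(x e)} : ℚ) := by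
  classical
  have h := card_rev (fun (i : Fin k) (e : Pair p) => π i • e) (fun _ => true)
  have h1 : Nat.card (Quot (r1 fun (i : Fin k) (e : Pair p) => π i • e)) = orbits π := by
    unfold orbits
    congr 1
    congr 1
    funext e e'
    apply propext
    exact exists_congr fun i => Subtype.ext_iff
  have h2 : Nat.card (Quot (r2 (fun (i : Fin k) (e : Pair p) => π i • e) fun _ => true)) =
      signedOrbits π := by
    unfold signedOrbits
    congr 1
    congr 1
    funext x y
    apply propext
    rw [r2_iff]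
    refine exists_congr fun i => ?_
    rw [Subtype.ext_iff]
    rw [Bool.xor_true]
    exact and_congr Iff.rfl eq_comm
  rw [h1, h2] at h
  unfold weight
  have h3 : Nat.card {x : Pair p → Bool // ∀ i e, x (π i • e) = !(x e)} =
      Nat.card (Rev (fun (i : Fin k) (e : Pair p) => π i • e) fun _ => true) := by
    unfold Rev
    simp only [Bool.xor_true]
  rw [h3, h]
  split_ifs <;> push_cast <;> rfl

/-- **Explicit formula for the number of labeled self-complementary graphs of order `p`.** -/
theorem result (p : ℕ) :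
    (numGraphs p : ℚ) =
      ∑ k ∈ Finset.Icc 1 (Nat.divisors p.factorial).card,
        (-1) ^ (k + 1) *
          (∑ T ∈ (Nat.divisors p.factorial).powersetCard k, ∏ d ∈ T, (1 / d : ℚ)) *
          ∑ π : Fin k → Equiv.Perm (Fin p), weight π := by
  classical
  have hcard : Fintype.card (Equiv.Perm (Fin p)) = p.factorial := by
    rw [Fintype.card_perm, Fintype.card_fin]
  let A : (Pair p → Bool) → Finset (Equiv.Perm (Fin p)) := fun x =>
    Finset.univ.filter fun π => ∀ e : Pair p, x (π • e) = !(x e)
  have hA : ∀ x π, π ∈ A x ↔ ∀ e : Pair p, x (π • e) = !(x e) := by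
    intro x π
    simp [A]
  have key := card_eq_moments A (Nat.divisors p.factorial)
    (fun d hd => (Nat.pos_of_mem_divisors hd).ne')
    (fun x => by
      have := card_reversing x (A x) (hA x)
      rwa [hcard] at this)
  have h1 : numGraphs p = Nat.card {x // (A x).Nonempty} := by
    unfold numGraphs
    refine Nat.card_congr (toFun.subtypeEquiv fun G => ?_)
    rw [selfCompl_iff]
    constructor
    · rintro ⟨π, h⟩
      exact ⟨π, (hA _ _).2 h⟩
    · rintro ⟨π, h⟩
      exact ⟨π, (hA _ _).1 h⟩
  rw [h1, key]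
  refine Finset.sum_congr rfl fun k _ => ?_
  congr 1
  refine Finset.sum_congr rfl fun π _ => ?_
  rw [weight_eq]
  have h2 : (fun x : Pair p → Bool => ∀ i, π i ∈ A x) =
      fun x => ∀ (i : Fin k) (e : Pair p), x (π i • e) = !(x e) := by
    funext x
    exact propext (forall_congr' fun i => hA x (π i))
  rw [h2]

end Pool.Agent.Results.MP_1bfbc2_co.LabeledGraphs
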